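import Mathlib
import Pool.Agent.Hhelper69.Uni.Hard
import Pool.Agent.Hhelper69.Uni.Sat

/-!
# Counting spanning connected unicyclic subgraphs is hard for Valiant's counting class

The definitions used in the statement are in `Pool.Agent.Hhelper69.Uni.Defs`.
-/

namespace Pool.Agent.Results.MP_c3079b_lc.SharpPHard

open Pool.Agent.Lib.PT Pool.Agent.Hhelper69.Uni

theorem reduces (f : List Bool → ℕ) (hf : SharpP f) : ReducesTT f := by
  refine hard_of Sat.posE Sat.negE Sat.Rn Sat.pt_posE Sat.pt_negE Sat.pt_Rn ?_ ?_ comboB
    PolyTime.comboB comboB_spec f hf
  · intro pre k gs
    unfold Sat.Rn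
    positivity
  · intro pre k gs hgs hv
    have h := Sat.sat_match pre k gs hgs hv
    rw [Nat.card_eq_fintype_card]
    exact h

/-- **Main theorem.**
(1) Every function `f` in the counting class reduces, by a non-adaptive polynomial-time Turing
reduction, to the number of spanning connected unicyclic subgraphs of connected multigraphs: a
polynomial-time machine `Q` maps `x` to (the code of) a list of connected loopless multigraphs, and
a polynomial-time machine `A` computes `f x` in binary from `x` and the list of the numbers of
spanning connected unicyclic subgraphs of these multigraphs.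
(2) Consequently, if a polynomial-time machine `U` computes the number of spanning connected
unicyclic subgraphs of every connected loopless multigraph, then every function of the counting
class is computable in polynomial time. -/
theorem result :
    (∀ f : List Bool → ℕ, SharpP f →
      ∃ Q A : List Bool → List Bool, FP Q ∧ FP A ∧
        ∀ x : List Bool, ∃ Gs : List MGraph,
          (∀ G ∈ Gs, G.Valid ∧ G.Connected) ∧
          Q x = encGraphs Gs ∧
          A (pairing x (encNats (Gs.map MGraph.unicyclic))) = Nat.bits (f x)) ∧
    (∀ U : List Bool → List Bool, FP U →
      (∀ G : MGraph, G.Valid → G.Connected → U (encGraph G) = Nat.bits G.unicyclic) →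
      ∀ f : List Bool → ℕ, SharpP f → FP (fun x => Nat.bits (f x))) :=
  ⟨fun f hf => (reduces f hf).tm, fun _ hU hUG f hf => (reduces f hf).fp hU hUG⟩

end Pool.Agent.Results.MP_c3079b_lc.SharpPHard
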